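import Mathlib.Algebra.Polynomial.RuleOfSigns
import Pool.Agent.Helper97.Nag.Goals1

/-! Project NAGATA (MP_d3128a_ag), S_HOR: the Descartes criterion (helper65). -/

set_option autoImplicit false

noncomputable section

namespace Pool.Agent.Helper65.Nag.HOR

open Pool.Agent.Helper97.Nag
open Pool.Agent.Helper97
open Polynomial

/-- sign variations are less than the number of terms -/
theorem sv_lt : ∀ (c : ℕ) (P : ℚ[X]), P.support.card = c → P ≠ 0 → P.signVariations < c := by
  intro c
  induction c with
  | zero =>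
    intro P h h0
    exfalso
    apply h0
    rwa [Finset.card_eq_zero, Polynomial.support_eq_empty] at h
  | succ c ih =>
    intro P h h0
    have h1 : P.eraseLead.support.card = c := by
      have h2 := Polynomial.card_support_eraseLead' h
      exact h2
    by_cases h3 : P.eraseLead = 0
    · have h4 : P = monomial P.natDegree P.leadingCoeff := by
        have h5 := P.eraseLead_add_monomial_natDegree_leadingCoeff
        rw [h3, zero_add] at h5
        exact h5.symm
      rw [h4, signVariations_monomial]
      omega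
    · have h4 := ih P.eraseLead h1 h3
      have h5 := signVariations_le_eraseLead_succ P
      omega

/-- positive roots with multiplicities -/
theorem count_le {b : ℕ} (M : Fin b → ℕ) (P : ℚ[X]) (hP : P ≠ 0)
    (h : ∀ l : Fin b, (X - C (((l : ℕ) : ℚ) + 1)) ^ (M l) ∣ P) :
    ∑ l, M l ≤ P.roots.countP (0 < ·) := by
  classical
  have h1 : (∑ l : Fin b, Multiset.replicate (M l) (((l : ℕ) : ℚ) + 1)) ≤ P.roots := by
    rw [Multiset.le_iff_count]
    intro r
    rw [Multiset.count_sum']
    by_cases hr : ∃ l : Fin b, (((l : ℕ) : ℚ) + 1) = r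
    · obtain ⟨l, rfl⟩ := hr
      rw [Finset.sum_eq_single l]
      · rw [Multiset.count_replicate_self, count_roots]
        exact (le_rootMultiplicity_iff hP).2 (h l)
      · intro l' _ hl
        rw [Multiset.count_replicate, if_neg]
        intro h2
        apply hl
        have h3 : ((l' : ℕ) : ℚ) = ((l : ℕ) : ℚ) := by linarith
        exact Fin.ext (Nat.cast_injective h3)
      · intro h2
        exact absurd (Finset.mem_univ l) h2
    · rw [Finset.sum_eq_zero]
      · exact Nat.zero_le _
      · intro l _
        rw [Multiset.count_replicate, if_neg]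
        intro h2
        exact hr ⟨l, h2⟩
  have h2 := Multiset.countP_le_of_le (fun x : ℚ => 0 < x) h1
  refine le_trans (le_of_eq ?_) h2
  have h3 : Multiset.countP (fun x : ℚ => 0 < x)
      (∑ l : Fin b, Multiset.replicate (M l) (((l : ℕ) : ℚ) + 1)) =
      Multiset.card (∑ l : Fin b, Multiset.replicate (M l) (((l : ℕ) : ℚ) + 1)) := by
    rw [Multiset.countP_eq_card]
    intro x hx
    rw [Multiset.mem_sum] at hx
    obtain ⟨l, _, hl⟩ := hx
    rw [Multiset.eq_of_mem_replicate hl]
    positivity
  rw [h3, Multiset.card_sum]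
  apply Finset.sum_congr rfl
  intro l _
  rw [Multiset.card_replicate]

/-- root counting for Laurent polynomials -/
theorem root {b : ℕ} (M : Fin b → ℕ) (T : Finset ℤ) (v : ℤ → ℚ)
    (h : ∀ (l : Fin b) (α : ℕ), α < M l →
      ∑ n ∈ T, v n * (((Ring.choose n α : ℤ) : ℚ) * (((l : ℕ) : ℚ) + 1) ^ n) = 0)
    (hT : T.card ≤ ∑ l, M l) : ∀ n ∈ T, v n = 0 := by
  classical
  obtain ⟨lo, hlo⟩ := T.bddBelow
  have hlo' : ∀ n ∈ T, lo ≤ n := fun n hn => hlo hn
  obtain ⟨f, hf⟩ : ∃ f : ℚ[X], f = ∑ n ∈ T, monomial (n - lo).toNat (v n) := ⟨_, rfl⟩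
  have hco : ∀ n ∈ T, f.coeff (n - lo).toNat = v n := by
    intro n hn
    rw [hf, finsetSum_coeff, Finset.sum_eq_single n]
    · rw [coeff_monomial, if_pos rfl]
    · intro n' hn' hne
      rw [coeff_monomial, if_neg]
      intro h1
      apply hne
      have h2 := hlo' n hn
      have h3 := hlo' n' hn'
      omega
    · intro h1
      exact absurd hn h1
  by_contra hcon
  push Not at hcon
  obtain ⟨n0, hn0, hv⟩ := hcon
  have hf0 : f ≠ 0 := by
    intro h1
    apply hv
    rw [← hco n0 hn0, h1, coeff_zero]
  have hcard : f.support.card ≤ T.card := by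
    have h1 : f.support ⊆ T.image fun n => (n - lo).toNat := by
      intro k hk
      rw [mem_support_iff, hf, finsetSum_coeff] at hk
      obtain ⟨n, hn, hne⟩ := Finset.exists_ne_zero_of_sum_ne_zero hk
      rw [coeff_monomial] at hne
      rw [Finset.mem_image]
      refine ⟨n, hn, ?_⟩
      by_contra h2
      exact hne (if_neg h2)
    exact (Finset.card_le_card h1).trans Finset.card_image_le
  have hdvd : ∀ l : Fin b, (X - C (((l : ℕ) : ℚ) + 1)) ^ (M l) ∣ f := by
    intro l
    obtain ⟨t, ht⟩ : ∃ t : ℚ, t = ((l : ℕ) : ℚ) + 1 := ⟨_, rfl⟩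
    have ht0 : t ≠ 0 := by
      rw [ht]
      positivity
    rw [← ht, X_sub_C_pow_dvd_iff, X_pow_dvd_iff]
    intro α hα
    have e1 : f.comp (X + C t) = taylor t f := rfl
    rw [e1, taylor_coeff, hf, map_sum, eval_finsetSum]
    have e2 : ∀ n ∈ T, eval t (hasseDeriv α (monomial (n - lo).toNat (v n))) =
        t ^ (-lo - α) * ∑ ij ∈ Finset.HasAntidiagonal.antidiagonal α,
          ((Ring.choose (-lo) ij.2 : ℤ) : ℚ) * (v n * (((Ring.choose n ij.1 : ℤ) : ℚ) * t ^ n)) := by
      intro n hn
      have hn1 := hlo' n hn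
      obtain ⟨k, hk⟩ : ∃ k : ℕ, n - lo = k := ⟨(n - lo).toNat, by omega⟩
      have hk2 : (n - lo).toNat = k := by omega
      rw [hk2, hasseDeriv_monomial, eval_monomial]
      have e3 : ∑ ij ∈ Finset.HasAntidiagonal.antidiagonal α,
          ((Ring.choose (-lo) ij.2 : ℤ) : ℚ) * (v n * (((Ring.choose n ij.1 : ℤ) : ℚ) * t ^ n)) =
          v n * t ^ n * ((k.choose α : ℕ) : ℚ) := by
        have h2 : ((k.choose α : ℕ) : ℤ) = ∑ ij ∈ Finset.HasAntidiagonal.antidiagonal α,
            Ring.choose n ij.1 * Ring.choose (-lo) ij.2 := by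
          rw [← Ring.add_choose_eq α (Commute.all n (-lo)), ← sub_eq_add_neg, hk,
            Ring.choose_natCast]
        have h3 := congrArg (fun z : ℤ => (z : ℚ)) h2
        push_cast at h3
        rw [h3, Finset.mul_sum]
        apply Finset.sum_congr rfl
        intro ij _
        ring
      rw [e3]
      by_cases hka : α ≤ k
      · have h4 : t ^ (k - α) = t ^ (-lo - (α : ℤ)) * t ^ n := by
          rw [← zpow_add₀ ht0, ← zpow_natCast]
          congr 1
          omega
        rw [h4]
        ring
      · rw [Nat.choose_eq_zero_of_lt (by omega)]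
        simp
    rw [Finset.sum_congr rfl e2, ← Finset.mul_sum, Finset.sum_comm]
    rw [Finset.sum_eq_zero, mul_zero]
    intro ij hij
    rw [← Finset.mul_sum, ht, h l ij.1 ?_, mul_zero]
    have h5 := Finset.HasAntidiagonal.mem_antidiagonal.1 hij
    omega
  have h1 := count_le M f hf0 hdvd
  have h2 := roots_countP_pos_le_signVariations f
  have h3 := sv_lt _ f rfl hf0
  omega

/-- a row with few points -/
theorem row (hSPN : Tate.S_SPN) (β : ℕ) (n : ℤ) (R : Finset (ℤ × ℤ)) (hR : ∀ q ∈ R, q.2 = n)
    (a : ℤ × ℤ → ℚ) (hc : R.card ≤ β)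
    (h : ∀ β' < β, ∑ q ∈ R, a q * ((Ring.choose q.1 β' : ℤ) : ℚ) = 0) : ∀ q ∈ R, a q = 0 := by
  classical
  intro q0 hq0
  have h1 := hSPN β R a ?_ (((R.erase q0).toList).map fun q => (1, 0, -q.1)) ?_
  · rw [Finset.sum_eq_single q0] at h1
    · rcases mul_eq_zero.1 h1 with h2 | h2
      · exact h2
      · exfalso
        rw [List.map_map, List.prod_eq_zero_iff, List.mem_map] at h2
        obtain ⟨q, hq, hq2⟩ := h2
        rw [Finset.mem_toList, Finset.mem_erase] at hq
        simp only [Function.comp_apply, one_mul, zero_mul, add_zero] at hq2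
        apply hq.1
        have h3 : q0.1 + -q.1 = 0 := by exact_mod_cast hq2
        apply Prod.ext
        · omega
        · rw [hR q hq.2, hR q0 hq0]
    · intro q hq hne
      rw [mul_eq_zero]
      right
      rw [List.map_map, List.prod_eq_zero_iff, List.mem_map]
      refine ⟨q, ?_, ?_⟩
      · rw [Finset.mem_toList, Finset.mem_erase]
        exact ⟨hne, hq⟩
      · simp
    · intro h2
      exact absurd hq0 h2
  · intro α β' hαβ
    have h2 : ∀ q ∈ R, a q * (((Ring.choose q.1 β' : ℤ) : ℚ) * ((Ring.choose q.2 α : ℤ) : ℚ)) =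
        (a q * ((Ring.choose q.1 β' : ℤ) : ℚ)) * ((Ring.choose n α : ℤ) : ℚ) := by
      intro q hq
      rw [hR q hq]
      ring
    rw [Finset.sum_congr rfl h2, ← Finset.sum_mul, h β' (by omega), zero_mul]
  · rw [List.length_map, Finset.length_toList, Finset.card_erase_of_mem hq0]
    have h2 : 0 < R.card := Finset.card_pos.2 ⟨q0, hq0⟩
    omega

theorem t (hSPN : Tate.S_SPN) : S_HOR := by
  classical
  intro b M S hS a ha
  have key : ∀ β : ℕ, ∀ n : ℤ,
      ∑ q ∈ S.filter (fun q => q.2 = n), a q * ((Ring.choose q.1 β : ℤ) : ℚ) = 0 := by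
    intro β
    induction β using Nat.strong_induction_on with
    | _ β ih =>
      have hsmall : ∀ n : ℤ, n ∉ lnv S (β + 1) →
          ∑ q ∈ S.filter (fun q => q.2 = n), a q * ((Ring.choose q.1 β : ℤ) : ℚ) = 0 := by
        intro n hn
        by_cases hne : (S.filter fun q => q.2 = n).card ≤ β
        · have h1 := row hSPN β n (S.filter fun q => q.2 = n)
            (fun q hq => (Finset.mem_filter.1 hq).2) a hne (fun β' hβ' => ih β' hβ' n)
          apply Finset.sum_eq_zero
          intro q hq
          rw [h1 q hq, zero_mul]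
        · exfalso
          apply hn
          unfold lnv
          rw [Finset.mem_filter, Finset.mem_image]
          refine ⟨?_, by omega⟩
          have h2 : 0 < (S.filter fun q => q.2 = n).card := by omega
          obtain ⟨q, hq⟩ := Finset.card_pos.1 h2
          rw [Finset.mem_filter] at hq
          exact ⟨q, hq.1, hq.2⟩
      have h0 := root (fun l => M l - β) (lnv S (β + 1))
        (fun n => ∑ q ∈ S.filter (fun q => q.2 = n), a q * ((Ring.choose q.1 β : ℤ) : ℚ)) ?_ ?_
      · intro n
        by_cases hn : n ∈ lnv S (β + 1)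
        · exact h0 n hn
        · exact hsmall n hn
      · intro l α hα
        have h1 := ha l α β (by omega)
        have h2 : ∑ q ∈ S, a q * (((Ring.choose q.1 β : ℤ) : ℚ) * ((Ring.choose q.2 α : ℤ) : ℚ) *
            (((l : ℕ) : ℚ) + 1) ^ q.2) =
            ∑ n ∈ S.image Prod.snd,
              (∑ q ∈ S.filter (fun q => q.2 = n), a q * ((Ring.choose q.1 β : ℤ) : ℚ)) *
              (((Ring.choose n α : ℤ) : ℚ) * (((l : ℕ) : ℚ) + 1) ^ n) := by
          rw [← Finset.sum_fiberwise_of_maps_to (s := S) (t := S.image Prod.snd) (g := Prod.snd)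
            (fun q hq => Finset.mem_image_of_mem _ hq)]
          apply Finset.sum_congr rfl
          intro n _
          rw [Finset.sum_mul]
          apply Finset.sum_congr rfl
          intro q hq
          rw [(Finset.mem_filter.1 hq).2]
          ring
        rw [h2] at h1
        rw [← h1]
        apply Finset.sum_subset
        · unfold lnv
          exact Finset.filter_subset _ _
        · intro n _ hn
          rw [hsmall n hn, zero_mul]
      · have h3 := hS (β + 1) (by omega)
        refine h3.trans (le_of_eq ?_)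
        apply Finset.sum_congr rfl
        intro l _
        omega
  intro q hq
  exact row hSPN (S.filter fun q' => q'.2 = q.2).card q.2 (S.filter fun q' => q'.2 = q.2)
    (fun q' hq' => (Finset.mem_filter.1 hq').2) a le_rfl (fun β' _ => key β' q.2) q
    (Finset.mem_filter.2 ⟨hq, rfl⟩)

end Pool.Agent.Helper65.Nag.HOR
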